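import Mathlib

set_option autoImplicit false

namespace Pool.Agent.Results.MP_890457_co.FaithfulDim

open Finset

/-- `IsFaithfulIn G k`: the graph `G` is isomorphic to an induced subgraph of the
unit distance graph of `ℝ^k`, i.e. there is an injective map of the vertices into `ℝ^k`
under which two distinct vertices are at distance exactly `1` iff they are adjacent. -/
def IsFaithfulIn {V : Type} (G : SimpleGraph V) (k : ℕ) : Prop :=
  ∃ φ : V → EuclideanSpace ℝ (Fin k), Function.Injective φ ∧
    ∀ u v : V, u ≠ v → (dist (φ u) (φ v) = 1 ↔ G.Adj u v)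

/-- The faithful dimension `Dim G`: the least `k` such that `G` is an induced subgraph of the
unit distance graph of `ℝ^k`. -/
noncomputable def faithfulDim {V : Type} (G : SimpleGraph V) : ℕ :=
  sInf {k : ℕ | IsFaithfulIn G k}

/-- adjacency between the two sides -/
def adjB {d : ℕ} (i j : Fin d) : Prop := i.val < 3 ∨ j.val < i.val

instance {d : ℕ} (i j : Fin d) : Decidable (adjB i j) := by unfold adjB; infer_instance

/-- The bipartite example. -/
def Gd (d : ℕ) : SimpleGraph (Fin d ⊕ Fin d) where
  Adj u v := (∃ i j, u = Sum.inl i ∧ v = Sum.inr j ∧ adjB i j) ∨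
    (∃ i j, v = Sum.inl i ∧ u = Sum.inr j ∧ adjB i j)
  symm := ⟨by
    intro u v h
    rcases h with h | h
    · exact Or.inr h
    · exact Or.inl h⟩
  loopless := ⟨by
    intro u h
    rcases h with ⟨i, j, h1, h2, _⟩ | ⟨i, j, h1, h2, _⟩
    · rw [h1] at h2; exact Sum.inl_ne_inr h2
    · rw [h1] at h2; exact Sum.inl_ne_inr h2⟩

lemma Gd_lr {d : ℕ} (i j : Fin d) : (Gd d).Adj (Sum.inl i) (Sum.inr j) ↔ adjB i j := by
  constructor
  · rintro (⟨i', j', h1, h2, h3⟩ | ⟨i', j', h1, h2, h3⟩)
    · rw [Sum.inl.injEq] at h1; rw [Sum.inr.injEq] at h2; rw [h1, h2]; exact h3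
    · exact absurd h1 Sum.inr_ne_inl
  · intro h; exact Or.inl ⟨i, j, rfl, rfl, h⟩

lemma Gd_ll {d : ℕ} (i j : Fin d) : ¬ (Gd d).Adj (Sum.inl i) (Sum.inl j) := by
  rintro (⟨i', j', h1, h2, h3⟩ | ⟨i', j', h1, h2, h3⟩)
  · exact absurd h2 Sum.inl_ne_inr
  · exact absurd h2 Sum.inl_ne_inr

lemma Gd_rr {d : ℕ} (i j : Fin d) : ¬ (Gd d).Adj (Sum.inr i) (Sum.inr j) := by
  rintro (⟨i', j', h1, h2, h3⟩ | ⟨i', j', h1, h2, h3⟩)
  · exact absurd h1 Sum.inr_ne_inl
  · exact absurd h1 Sum.inr_ne_inl

section lower

variable {k : ℕ}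

/-- first lift of a point -/
noncomputable def al (p : EuclideanSpace ℝ (Fin k)) : Fin k ⊕ Bool → ℝ :=
  Sum.elim (fun i => p i) (fun b => if b then ‖p‖ ^ 2 - 1 else 1)

/-- second lift of a point -/
noncomputable def be (q : EuclideanSpace ℝ (Fin k)) : Fin k ⊕ Bool → ℝ :=
  Sum.elim (fun i => -2 * q i) (fun b => if b then 1 else ‖q‖ ^ 2)

lemma dist_sq (p q : EuclideanSpace ℝ (Fin k)) :
    dist p q ^ 2 = ‖p‖ ^ 2 - 2 * ∑ i, p i * q i + ‖q‖ ^ 2 := by
  rw [dist_eq_norm, @norm_sub_sq_real]
  congr 2
  rw [PiLp.inner_apply]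
  congr 1
  apply Finset.sum_congr rfl
  intro i _
  simp [mul_comm]

lemma dot_al_be (p q : EuclideanSpace ℝ (Fin k)) :
    ∑ x, al p x * be q x = dist p q ^ 2 - 1 := by
  rw [Fintype.sum_sum_type, Fintype.sum_bool, dist_sq]
  simp only [al, be, Sum.elim_inl, Sum.elim_inr]
  have : ∑ x : Fin k, p x * (-2 * q x) = -2 * ∑ x : Fin k, p x * q x := by
    rw [Finset.mul_sum]; apply Finset.sum_congr rfl; intro i _; ring
  rw [this]
  simp
  ring

/-- three distinct points satisfy no nontrivial relation together with their squared norms -/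
lemma three (p : Fin 3 → EuclideanSpace ℝ (Fin k)) (hp : Function.Injective p) (c : Fin 3 → ℝ)
    (h0 : ∑ i, c i = 0) (h1 : ∀ x, ∑ i, c i * p i x = 0) (h2 : ∑ i, c i * ‖p i‖ ^ 2 = 0) :
    ∀ i, c i = 0 := by
  have hd : ∀ z : EuclideanSpace ℝ (Fin k), ∑ i, c i * dist (p i) z ^ 2 = 0 := by
    intro z
    have e : ∀ i, c i * dist (p i) z ^ 2 = c i * ‖p i‖ ^ 2 - 2 * ∑ x, (c i * p i x) * z x + c i * ‖z‖ ^ 2 := by
      intro i
      rw [dist_sq]
      have : ∑ x, (c i * p i x) * z x = c i * ∑ x, p i x * z x := by
        rw [Finset.mul_sum]; apply Finset.sum_congr rfl; intro x _; ring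
      rw [this]; ring
    rw [Finset.sum_congr rfl (fun i _ => e i), Finset.sum_add_distrib, Finset.sum_sub_distrib, h2,
      ← Finset.mul_sum, Finset.sum_comm, ← Finset.sum_mul, h0]
    have : ∑ y, ∑ x, (c x * p x y) * z y = 0 := by
      apply Finset.sum_eq_zero
      intro y _
      rw [← Finset.sum_mul, h1 y, zero_mul]
    rw [this]; ring
  have g0 := hd (p 0)
  have g1 := hd (p 1)
  have g2 := hd (p 2)
  rw [Fin.sum_univ_three] at g0 g1 g2
  simp only [dist_self] at g0 g1 g2
  have d01 : 0 < dist (p 0) (p 1) ^ 2 := by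
    have : 0 < dist (p 0) (p 1) := dist_pos.mpr (fun h => by have := hp h; revert this; decide)
    positivity
  have d02 : 0 < dist (p 0) (p 2) ^ 2 := by
    have : 0 < dist (p 0) (p 2) := dist_pos.mpr (fun h => by have := hp h; revert this; decide)
    positivity
  have d12 : 0 < dist (p 1) (p 2) ^ 2 := by
    have : 0 < dist (p 1) (p 2) := dist_pos.mpr (fun h => by have := hp h; revert this; decide)
    positivity
  rw [dist_comm (p 1) (p 0), dist_comm (p 2) (p 0)] at g0
  rw [dist_comm (p 2) (p 1)] at g1
  set A := dist (p 0) (p 1) ^ 2 with hA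
  set B := dist (p 0) (p 2) ^ 2 with hB
  set C := dist (p 1) (p 2) ^ 2 with hC
  -- g0 : c1 A + c2 B = 0, g1 : c0 A + c2 C = 0, g2 : c0 B + c1 C = 0
  have k0 : c 1 * A + c 2 * B = 0 := by linarith
  have k1 : c 0 * A + c 2 * C = 0 := by linarith
  have k2 : c 0 * B + c 1 * C = 0 := by linarith
  -- c0 * c1 <= 0, c0 * c2 <= 0, c1 * c2 <= 0
  have z2 : c 2 = 0 := by
    -- from k1 c0 = - c2 C / A, k0 c1 = - c2 B / A, k2 : c2 (C B / A + B C / A) = 0
    have : c 2 * (2 * B * C) = 0 := by
      have e1 : c 0 * A * B = - (c 2 * C * B) := by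
        have : c 0 * A = - (c 2 * C) := by linarith
        rw [this]; ring
      have e2 : c 1 * A * C = - (c 2 * B * C) := by
        have : c 1 * A = - (c 2 * B) := by linarith
        rw [this]; ring
      have e3 : A * (c 0 * B + c 1 * C) = 0 := by rw [k2, mul_zero]
      linarith
    rcases mul_eq_zero.mp this with h | h
    · exact h
    · have : 0 < 2 * B * C := by positivity
      linarith
  have z0 : c 0 = 0 := by
    rw [z2, zero_mul, add_zero] at k1
    rcases mul_eq_zero.mp k1 with h | h
    · exact h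
    · linarith
  have z1 : c 1 = 0 := by
    rw [z2, zero_mul, add_zero] at k0
    rcases mul_eq_zero.mp k0 with h | h
    · exact h
    · linarith
  intro i
  fin_cases i
  · exact z0
  · exact z1
  · exact z2

theorem lower (d : ℕ) (hd : 3 ≤ d) (hk : k ≤ d) (a b : Fin d → EuclideanSpace ℝ (Fin k))
    (ha : Function.Injective a) (hb : Function.Injective b)
    (hab : ∀ i j, dist (a i) (b j) = 1 ↔ adjB i j) : False := by
  have hdot : ∀ i j, (∑ x, al (a i) x * be (b j) x = 0 ↔ adjB i j) := by
    intro i j
    rw [dot_al_be, ← hab]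
    constructor
    · intro h
      have h1 : dist (a i) (b j) ^ 2 = 1 := by linarith
      exact (pow_eq_one_iff_of_nonneg dist_nonneg (by norm_num)).mp h1
    · intro h; rw [h]; norm_num
  -- embedding of Fin 3
  let ι : Fin 3 → Fin d := fun i => ⟨i.val, by omega⟩
  have hι : Function.Injective ι := by
    intro x y h
    have := congrArg Fin.val h
    exact Fin.ext this
  have hli : LinearIndependent ℝ (Sum.elim (fun i : Fin 3 => al (a (ι i))) (fun j : Fin d => be (b j))) := by
    rw [Fintype.linearIndependent_iff]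
    intro g hg
    rw [Fintype.sum_sum_type] at hg
    simp only [Sum.elim_inl, Sum.elim_inr] at hg
    set u : Fin k ⊕ Bool → ℝ := ∑ i : Fin 3, g (Sum.inl i) • al (a (ι i)) with hu
    set w : Fin k ⊕ Bool → ℝ := ∑ j : Fin d, g (Sum.inr j) • be (b j) with hw
    have huw : ∑ x, u x * w x = 0 := by
      have e1 : ∀ x, u x * w x = ∑ i : Fin 3, ∑ j : Fin d, (g (Sum.inl i) * g (Sum.inr j)) * (al (a (ι i)) x * be (b j) x) := by
        intro x
        rw [hu, hw, Finset.sum_apply, Finset.sum_apply, Finset.sum_mul_sum]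
        apply Finset.sum_congr rfl; intro i _
        apply Finset.sum_congr rfl; intro j _
        simp only [Pi.smul_apply, smul_eq_mul]; ring
      rw [Finset.sum_congr rfl (fun x _ => e1 x), Finset.sum_comm]
      apply Finset.sum_eq_zero; intro i _
      rw [Finset.sum_comm]
      apply Finset.sum_eq_zero; intro j _
      rw [← Finset.mul_sum, (hdot (ι i) j).mpr (Or.inl i.isLt), mul_zero]
    have huw2 : w = - u := by
      rw [eq_neg_iff_add_eq_zero, add_comm]; exact hg
    have hu0 : u = 0 := by
      have : ∑ x, u x * u x = 0 := by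
        have e0 : ∀ x, u x * w x = -(u x * u x) := by
          intro x; rw [huw2]; simp
        have e : ∑ x, u x * w x = - ∑ x, u x * u x := by
          rw [Finset.sum_congr rfl (fun x _ => e0 x), Finset.sum_neg_distrib]
        linarith
      rw [Finset.sum_eq_zero_iff_of_nonneg (fun x _ => mul_self_nonneg _)] at this
      funext x
      exact mul_self_eq_zero.mp (this x (Finset.mem_univ x))
    have hw0 : w = 0 := by rw [huw2, hu0, neg_zero]
    -- the three first
    have hg1 : ∀ i : Fin 3, g (Sum.inl i) = 0 := by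
      apply three (fun i => a (ι i)) (ha.comp hι) (fun i => g (Sum.inl i))
      · have := congrFun hu0 (Sum.inr false)
        rw [hu, Finset.sum_apply] at this
        simpa [al] using this
      · intro x
        have := congrFun hu0 (Sum.inl x)
        rw [hu, Finset.sum_apply] at this
        simpa [al] using this
      · have h0 := congrFun hu0 (Sum.inr false)
        rw [hu, Finset.sum_apply] at h0
        simp [al] at h0
        have h1 := congrFun hu0 (Sum.inr true)
        rw [hu, Finset.sum_apply] at h1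
        simp [al, mul_sub, Finset.sum_sub_distrib] at h1
        linarith
    -- large indices on the other side
    have hg2 : ∀ j : Fin d, 3 ≤ j.val → g (Sum.inr j) = 0 := by
      by_contra hcon
      push Not at hcon
      obtain ⟨j0, hj0, hj0'⟩ := hcon
      set S : Finset (Fin d) := univ.filter (fun j => 3 ≤ j.val ∧ g (Sum.inr j) ≠ 0) with hS
      have hSne : S.Nonempty := ⟨j0, by rw [hS]; simp [hj0, hj0']⟩
      set t := S.max' hSne with ht
      have htS : t ∈ S := Finset.max'_mem _ _
      have ht1 : 3 ≤ t.val ∧ g (Sum.inr t) ≠ 0 := by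
        have := htS; rw [hS] at this; simpa using this
      have hmax : ∀ j : Fin d, t < j → g (Sum.inr j) = 0 := by
        intro j hj
        by_contra hne
        have hjS : j ∈ S := by
          rw [hS]; simp only [Finset.mem_filter, Finset.mem_univ, true_and]
          refine ⟨?_, hne⟩
          have : t.val < j.val := hj
          omega
        exact absurd (Finset.le_max' S j hjS) (not_le.mpr hj)
      have hsum : ∑ x, al (a t) x * w x = 0 := by rw [hw0]; simp
      have e1 : ∑ x, al (a t) x * w x = ∑ j : Fin d, g (Sum.inr j) * ∑ x, al (a t) x * be (b j) x := by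
        rw [hw]
        have : ∀ x, al (a t) x * (∑ j : Fin d, g (Sum.inr j) • be (b j)) x
            = ∑ j : Fin d, g (Sum.inr j) * (al (a t) x * be (b j) x) := by
          intro x
          rw [Finset.sum_apply, Finset.mul_sum]
          apply Finset.sum_congr rfl; intro j _
          simp only [Pi.smul_apply, smul_eq_mul]; ring
        rw [Finset.sum_congr rfl (fun x _ => this x), Finset.sum_comm]
        apply Finset.sum_congr rfl; intro j _
        rw [Finset.mul_sum]
      rw [e1] at hsum
      rw [Finset.sum_eq_single t] at hsum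
      · rcases mul_eq_zero.mp hsum with h | h
        · exact ht1.2 h
        · have := (hdot t t).mp h
          rcases this with h' | h'
          · omega
          · omega
      · intro j _ hjt
        rcases lt_or_gt_of_ne hjt with h | h
        · have : adjB t j := Or.inr h
          rw [(hdot t j).mpr this, mul_zero]
        · rw [hmax j h, zero_mul]
      · intro h; exact absurd (Finset.mem_univ _) h
    -- reduce to three
    have hw3 : ∀ x, ∑ i : Fin 3, g (Sum.inr (ι i)) * be (b (ι i)) x = 0 := by
      intro x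
      have h0 := congrFun hw0 x
      rw [hw, Finset.sum_apply] at h0
      simp only [Pi.smul_apply, smul_eq_mul, Pi.zero_apply] at h0
      rw [← h0]
      have himg : ∑ i : Fin 3, g (Sum.inr (ι i)) * be (b (ι i)) x
          = ∑ j ∈ univ.image ι, g (Sum.inr j) * be (b j) x := by
        rw [Finset.sum_image (fun _ _ _ _ h => hι h)]
      rw [himg]
      apply Finset.sum_subset (Finset.subset_univ _)
      intro j _ hj
      have : 3 ≤ j.val := by
        by_contra hlt
        push Not at hlt
        apply hj
        rw [Finset.mem_image]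
        exact ⟨⟨j.val, hlt⟩, Finset.mem_univ _, rfl⟩
      rw [hg2 j this, zero_mul]
    have hg3 : ∀ i : Fin 3, g (Sum.inr (ι i)) = 0 := by
      apply three (fun i => b (ι i)) (hb.comp hι) (fun i => g (Sum.inr (ι i)))
      · have := hw3 (Sum.inr true)
        simpa [be] using this
      · intro x
        have := hw3 (Sum.inl x)
        simp only [be, Sum.elim_inl] at this
        have e : ∑ i : Fin 3, g (Sum.inr (ι i)) * (-2 * (b (ι i)) x)
            = -2 * ∑ i : Fin 3, g (Sum.inr (ι i)) * (b (ι i)) x := by
          rw [Finset.mul_sum]; apply Finset.sum_congr rfl; intro i _; ring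
        rw [e] at this
        linarith
      · have := hw3 (Sum.inr false)
        simpa [be] using this
    intro s
    rcases s with i | j
    · exact hg1 i
    · by_cases hj : 3 ≤ j.val
      · exact hg2 j hj
      · push Not at hj
        have := hg3 ⟨j.val, hj⟩
        exact this
  have hcard := hli.fintype_card_le_finrank
  simp at hcard
  omega

end lower

section upper

/-- the size parameter of the explicit faithful drawing -/
noncomputable def xx (d : ℕ) : ℝ := 1 / (8 * d)

/-- the number of neighbours on the other side -/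
def dg {d : ℕ} (i : Fin d) : ℕ := (univ.filter (fun j : Fin d => adjB i j)).card

/-- height coordinate -/
noncomputable def hh {d : ℕ} (i : Fin d) : ℝ := Real.sqrt (2 * xx d - xx d ^ 2 * dg i)

/-- the faithful drawing in dimension `2 d` -/
noncomputable def draw {d : ℕ} : Fin d ⊕ Fin d → EuclideanSpace ℝ (Fin d ⊕ Fin d) :=
  Sum.elim
    (fun i => WithLp.toLp 2 (Sum.elim (fun j => if adjB i j then xx d else 0) (fun l => if l = i then hh i else 0)))
    (fun j => WithLp.toLp 2 (Sum.elim (fun l => if l = j then 1 else 0) (fun _ => 0)))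

lemma dg_le {d : ℕ} (i : Fin d) : dg i ≤ d := by
  unfold dg
  exact (Finset.card_filter_le _ _).trans (by simp)

lemma rad_pos {d : ℕ} (i : Fin d) : 0 < 2 * xx d - xx d ^ 2 * dg i := by
  have hd : 0 < d := by have := i.isLt; omega
  have hdr : (0:ℝ) < d := by exact_mod_cast hd
  have h1 : (dg i : ℝ) ≤ d := by exact_mod_cast dg_le i
  have hx : 0 < xx d := by unfold xx; positivity
  have h2 : xx d * d = 1 / 8 := by unfold xx; field_simp
  have h3 : xx d ^ 2 * dg i ≤ xx d ^ 2 * d := mul_le_mul_of_nonneg_left h1 (by positivity)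
  have h4 : xx d ^ 2 * d = xx d * (1 / 8) := by rw [← h2]; ring
  nlinarith

lemma hh_sq {d : ℕ} (i : Fin d) : hh i ^ 2 = 2 * xx d - xx d ^ 2 * dg i := by
  unfold hh
  rw [Real.sq_sqrt (rad_pos i).le]

lemma hh_pos {d : ℕ} (i : Fin d) : 0 < hh i := Real.sqrt_pos.mpr (rad_pos i)

lemma dist_ab {d : ℕ} (i j : Fin d) :
    dist (draw (Sum.inl i)) (draw (Sum.inr j)) ^ 2 = 1 + 2 * xx d - (if adjB i j then 2 * xx d else 0) := by
  rw [EuclideanSpace.dist_eq, Real.sq_sqrt (by positivity), Fintype.sum_sum_type]
  simp only [draw, Sum.elim_inl, Sum.elim_inr, Real.dist_eq, sq_abs, sub_zero]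
  have e1 : ∀ l : Fin d, ((if adjB i l then xx d else 0) - (if l = j then 1 else 0)) ^ 2
      = (if adjB i l then xx d ^ 2 else 0) + (if l = j then (1 - (if adjB i j then 2 * xx d else 0)) else 0) := by
    intro l
    by_cases h2 : l = j
    · subst h2
      by_cases h1 : adjB i l <;> simp [h1] <;> ring
    · by_cases h1 : adjB i l <;> simp [h1, h2]
  have e2 : ∀ l : Fin d, (if l = i then hh i else 0) ^ 2 = if l = i then hh i ^ 2 else 0 := by
    intro l; by_cases h : l = i <;> simp [h]
  rw [Finset.sum_congr rfl (fun l _ => e1 l), Finset.sum_congr rfl (fun l _ => e2 l),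
    Finset.sum_add_distrib, Finset.sum_ite_eq', Finset.sum_ite_eq', if_pos (Finset.mem_univ _),
    if_pos (Finset.mem_univ _), hh_sq, ← Finset.sum_filter, Finset.sum_const, nsmul_eq_mul]
  unfold dg
  ring

lemma dist_bb {d : ℕ} (i j : Fin d) (hij : i ≠ j) :
    dist (draw (Sum.inr i)) (draw (Sum.inr j)) ^ 2 = 2 := by
  rw [EuclideanSpace.dist_eq, Real.sq_sqrt (by positivity), Fintype.sum_sum_type]
  simp only [draw, Sum.elim_inr, Sum.elim_inl, Real.dist_eq, sq_abs, sub_zero]
  have e1 : ∀ l : Fin d, (((if l = i then (1:ℝ) else 0)) - (if l = j then 1 else 0)) ^ 2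
      = (if l = i then 1 else 0) + (if l = j then 1 else 0) := by
    intro l
    by_cases h1 : l = i
    · subst h1; simp [hij]
    · by_cases h2 : l = j <;> simp [h1, h2, hij.symm]
  rw [Finset.sum_congr rfl (fun l _ => e1 l), Finset.sum_add_distrib, Finset.sum_ite_eq', Finset.sum_ite_eq']
  simp
  norm_num

lemma dist_aa {d : ℕ} (i j : Fin d) (hij : i ≠ j) :
    0 < dist (draw (Sum.inl i)) (draw (Sum.inl j)) ^ 2 ∧
      dist (draw (Sum.inl i)) (draw (Sum.inl j)) ^ 2 < 1 := by
  have hd : 0 < d := by have := i.isLt; omega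
  have hdr : (1:ℝ) ≤ d := by exact_mod_cast hd
  have hx : 0 < xx d := by unfold xx; positivity
  have h2 : xx d * d = 1 / 8 := by unfold xx; field_simp
  have hx8 : xx d ≤ 1 / 8 := by nlinarith
  rw [EuclideanSpace.dist_eq, Real.sq_sqrt (by positivity), Fintype.sum_sum_type]
  simp only [draw, Sum.elim_inr, Sum.elim_inl, Real.dist_eq, sq_abs]
  have e2 : ∀ l : Fin d, ((if l = i then hh i else 0) - (if l = j then hh j else 0)) ^ 2
      = (if l = i then hh i ^ 2 else 0) + (if l = j then hh j ^ 2 else 0) := by
    intro l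
    by_cases h1 : l = i
    · subst h1; simp [hij]
    · by_cases h2 : l = j <;> simp [h1, h2, hij.symm]
  rw [Finset.sum_congr rfl (fun l _ => e2 l), Finset.sum_add_distrib, Finset.sum_ite_eq', Finset.sum_ite_eq',
    if_pos (Finset.mem_univ _), if_pos (Finset.mem_univ _)]
  have e1 : ∑ l : Fin d, ((if adjB i l then xx d else 0) - (if adjB j l then xx d else 0)) ^ 2
      ≤ ∑ _l : Fin d, xx d ^ 2 := by
    apply Finset.sum_le_sum
    intro l _
    by_cases h1 : adjB i l <;> by_cases h3 : adjB j l <;> simp [h1, h3] <;> positivity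
  have e3 : ∑ _l : Fin d, xx d ^ 2 = xx d * (1 / 8) := by
    rw [Finset.sum_const, nsmul_eq_mul, Finset.card_univ, Fintype.card_fin, ← h2]; ring
  have e4 : 0 ≤ ∑ l : Fin d, ((if adjB i l then xx d else 0) - (if adjB j l then xx d else 0)) ^ 2 :=
    Finset.sum_nonneg (fun _ _ => sq_nonneg _)
  have p1 := hh_pos i
  have p2 := hh_pos j
  have q1 : hh i ^ 2 ≤ 2 * xx d := by
    rw [hh_sq]; have : 0 ≤ xx d ^ 2 * dg i := by positivity
    linarith
  have q2 : hh j ^ 2 ≤ 2 * xx d := by
    rw [hh_sq]; have : 0 ≤ xx d ^ 2 * dg j := by positivity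
    linarith
  constructor
  · have : 0 < hh i ^ 2 := by positivity
    have : 0 < hh j ^ 2 := by positivity
    linarith
  · nlinarith

theorem exists_faithful (d : ℕ) : ∃ k, IsFaithfulIn (Gd d) k := by
  refine ⟨Fintype.card (Fin d ⊕ Fin d), ?_⟩
  let e := LinearIsometryEquiv.piLpCongrLeft 2 ℝ ℝ (Fintype.equivFin (Fin d ⊕ Fin d))
  have hdist : ∀ u v, dist (e (draw u)) (e (draw v)) = dist (draw u) (draw v) := fun u v => e.dist_map _ _
  have hx : ∀ (i : Fin d), 0 < xx d := by
    intro i
    have hd : 0 < d := by have := i.isLt; omega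
    have hdr : (0:ℝ) < d := by exact_mod_cast hd
    unfold xx; positivity
  have key : ∀ u v : Fin d ⊕ Fin d, u ≠ v → draw u ≠ draw v ∧ (dist (draw u) (draw v) = 1 ↔ (Gd d).Adj u v) := by
    have hlr : ∀ i j : Fin d, draw (Sum.inl i) ≠ draw (Sum.inr j) ∧
        (dist (draw (Sum.inl i)) (draw (Sum.inr j)) = 1 ↔ adjB i j) := by
      intro i j
      have h := dist_ab i j
      have hxi := hx i
      constructor
      · intro heq
        rw [heq, dist_self] at h
        by_cases hadj : adjB i j <;> simp [hadj] at h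
        linarith
      · constructor
        · intro h1
          by_contra hadj
          rw [h1, if_neg hadj] at h
          linarith
        · intro hadj
          rw [if_pos hadj] at h
          have h1 : dist (draw (Sum.inl i)) (draw (Sum.inr j)) ^ 2 = 1 := by linarith
          exact (pow_eq_one_iff_of_nonneg dist_nonneg (by norm_num)).mp h1
    intro u v huv
    rcases u with i | i <;> rcases v with j | j
    · have hij : i ≠ j := fun h => huv (by rw [h])
      have h := dist_aa i j hij
      refine ⟨?_, ?_⟩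
      · intro heq; rw [heq, dist_self] at h; norm_num at h
      · constructor
        · intro h1; rw [h1] at h; norm_num at h
        · intro h1; exact absurd h1 (Gd_ll i j)
    · rw [Gd_lr]; exact hlr i j
    · have h := hlr j i
      rw [SimpleGraph.adj_comm, Gd_lr, dist_comm]
      exact ⟨fun heq => h.1 heq.symm, h.2⟩
    · have hij : i ≠ j := fun h => huv (by rw [h])
      have h := dist_bb i j hij
      refine ⟨?_, ?_⟩
      · intro heq; rw [heq, dist_self] at h; norm_num at h
      · constructor
        · intro h1; rw [h1] at h; norm_num at h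
        · intro h1; exact absurd h1 (Gd_rr i j)
  refine ⟨fun v => e (draw v), ?_, ?_⟩
  · intro u v h
    by_contra huv
    exact (key u v huv).1 (e.injective h)
  · intro u v huv
    rw [hdist]
    exact (key u v huv).2

end upper

instance {d : ℕ} : DecidableRel (Gd d).Adj := fun u v => by
  unfold Gd
  infer_instance

lemma Gd_connected (d : ℕ) (hd : 3 ≤ d) : (Gd d).Connected := by
  have h0 : ∀ j : Fin d, (Gd d).Adj (Sum.inl ⟨0, by omega⟩) (Sum.inr j) := by
    intro j; rw [Gd_lr]; left; norm_num
  have h1 : ∀ i : Fin d, (Gd d).Adj (Sum.inl i) (Sum.inr ⟨0, by omega⟩) := by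
    intro i; rw [Gd_lr]; unfold adjB
    by_cases h : i.val < 3
    · exact Or.inl h
    · right; simp only; omega
  have hr : ∀ v : Fin d ⊕ Fin d, (Gd d).Reachable v (Sum.inl ⟨0, by omega⟩) := by
    intro v
    rcases v with i | j
    · exact (h1 i).reachable.trans (h0 _).symm.reachable
    · exact (h0 j).symm.reachable
  have : Nonempty (Fin d ⊕ Fin d) := ⟨Sum.inl ⟨0, by omega⟩⟩
  exact SimpleGraph.Connected.mk (fun u v => (hr u).trans (hr v).symm)

lemma Gd_maxDegree (d : ℕ) (hd : 3 ≤ d) : (Gd d).maxDegree = d := by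
  apply le_antisymm
  · apply SimpleGraph.maxDegree_le_of_forall_degree_le
    intro v
    rcases v with i | j
    · rw [← SimpleGraph.card_neighborFinset_eq_degree]
      have : (Gd d).neighborFinset (Sum.inl i) ⊆ (univ : Finset (Fin d)).image Sum.inr := by
        intro w hw
        rw [SimpleGraph.mem_neighborFinset] at hw
        rcases w with l | l
        · exact absurd hw (Gd_ll i l)
        · simp
      exact (Finset.card_le_card this).trans (Finset.card_image_le.trans (by simp))
    · rw [← SimpleGraph.card_neighborFinset_eq_degree]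
      have : (Gd d).neighborFinset (Sum.inr j) ⊆ (univ : Finset (Fin d)).image Sum.inl := by
        intro w hw
        rw [SimpleGraph.mem_neighborFinset] at hw
        rcases w with l | l
        · simp
        · exact absurd hw (Gd_rr j l)
      exact (Finset.card_le_card this).trans (Finset.card_image_le.trans (by simp))
  · have h0 : d ≤ (Gd d).degree (Sum.inl ⟨0, by omega⟩) := by
      rw [← SimpleGraph.card_neighborFinset_eq_degree]
      have : (univ : Finset (Fin d)).image Sum.inr ⊆ (Gd d).neighborFinset (Sum.inl ⟨0, by omega⟩) := by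
        intro w hw
        rw [Finset.mem_image] at hw
        obtain ⟨j, _, rfl⟩ := hw
        rw [SimpleGraph.mem_neighborFinset, Gd_lr]
        left; norm_num
      have h1 := Finset.card_le_card this
      rw [Finset.card_image_of_injective _ Sum.inr_injective] at h1
      simpa using h1
    exact h0.trans (SimpleGraph.degree_le_maxDegree _ _)

/-- For every `d ≥ 3` there is a finite connected graph of maximum degree exactly `d` whose
faithful dimension is larger than `d`. -/
theorem result : ∀ d : ℕ, 3 ≤ d →
    ∃ (V : Type) (_ : Fintype V) (_ : DecidableEq V) (G : SimpleGraph V) (_ : DecidableRel G.Adj),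
      G.Connected ∧ G.maxDegree = d ∧ G.maxDegree < faithfulDim G := by
  intro d hd
  refine ⟨Fin d ⊕ Fin d, inferInstance, inferInstance, Gd d, inferInstance,
    Gd_connected d hd, Gd_maxDegree d hd, ?_⟩
  rw [Gd_maxDegree d hd]
  have hmem : faithfulDim (Gd d) ∈ {k : ℕ | IsFaithfulIn (Gd d) k} := Nat.sInf_mem (exists_faithful d)
  by_contra hcon
  push Not at hcon
  obtain ⟨φ, hinj, hφ⟩ := hmem
  apply lower d hd hcon (fun i => φ (Sum.inl i)) (fun j => φ (Sum.inr j))
    (fun x y h => Sum.inl_injective (hinj h)) (fun x y h => Sum.inr_injective (hinj h))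
  intro i j
  rw [hφ _ _ Sum.inl_ne_inr, Gd_lr]

end Pool.Agent.Results.MP_890457_co.FaithfulDim
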